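import Mathlib
import Pool.Agent.N718.GC.Stm2

/-!
# Part WLOCR: real points move with the base point (project GC)
-/

set_option autoImplicit false
set_option linter.all false

namespace Pool.Agent.N771.GC

open Finset Pool.Agent.N718.DC Pool.Agent.N718.GC

/-- The constant in the estimate for the change of the value of a form. -/
noncomputable def cst (e m₀ : ℕ) : ℝ := ∑ j : Fin (e + 2), ((j : ℕ) : ℝ) * ((m₀ : ℝ) + 1) ^ (j : ℕ)

theorem cst_nonneg (e m₀ : ℕ) : 0 ≤ cst e m₀ := by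
  unfold cst
  exact Finset.sum_nonneg fun j _ => by positivity

theorem pow_close (m₀ : ℕ) (T t : ℝ) (hT : |T| ≤ m₀) (h : |T - t| ≤ 1) (k : ℕ) :
    |t ^ k - T ^ k| ≤ |T - t| * ((k : ℝ) * ((m₀ : ℝ) + 1) ^ k) := by
  have h1 := abs_pow_sub_pow_le t T k
  have ht : |t| ≤ (m₀ : ℝ) + 1 := by
    have : |t| ≤ |T| + |T - t| := by
      have := abs_sub_abs_le_abs_sub t T
      rw [abs_sub_comm t T] at this
      linarith
    linarith
  have hm : max |t| |T| ≤ (m₀ : ℝ) + 1 := max_le ht (by linarith)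
  have h0 : 0 ≤ max |t| |T| := le_max_of_le_left (abs_nonneg _)
  have h2 : max |t| |T| ^ (k - 1) ≤ ((m₀ : ℝ) + 1) ^ k := by
    calc max |t| |T| ^ (k - 1) ≤ ((m₀ : ℝ) + 1) ^ (k - 1) := pow_le_pow_left₀ h0 hm _
      _ ≤ ((m₀ : ℝ) + 1) ^ k := pow_le_pow_right₀ (by
          have : (0 : ℝ) ≤ m₀ := Nat.cast_nonneg _
          linarith) (Nat.sub_le _ _)
  rw [abs_sub_comm T t]
  calc |t ^ k - T ^ k| ≤ |t - T| * k * max |t| |T| ^ (k - 1) := h1
    _ ≤ |t - T| * k * ((m₀ : ℝ) + 1) ^ k :=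
        mul_le_mul_of_nonneg_left h2 (by positivity)
    _ = |t - T| * ((k : ℝ) * ((m₀ : ℝ) + 1) ^ k) := by ring

theorem fmv_close {e : ℕ} (c : Fin (e + 2) → ℤ) (H m₀ : ℕ) (hc : ∀ j, |(c j : ℝ)| ≤ H) (T t : ℝ)
    (hT : |T| ≤ m₀) (h : |T - t| ≤ 1) :
    |fmv c 1 t - fmv c 1 T| ≤ H * (|T - t| * cst e m₀) := by
  unfold fmv fm cst
  rw [← Finset.sum_sub_distrib]
  refine (Finset.abs_sum_le_sum_abs _ _).trans ?_
  rw [Finset.mul_sum, Finset.mul_sum]
  refine Finset.sum_le_sum fun j _ => ?_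
  have h1 : (c j : ℝ) * 1 ^ (e + 1 - (j : ℕ)) * t ^ (j : ℕ) -
      (c j : ℝ) * 1 ^ (e + 1 - (j : ℕ)) * T ^ (j : ℕ) = (c j : ℝ) * (t ^ (j : ℕ) - T ^ (j : ℕ)) := by
    rw [one_pow]; ring
  rw [h1, abs_mul]
  exact mul_le_mul (hc j) (pow_close m₀ T t hT h j) (abs_nonneg _) (Nat.cast_nonneg _)

theorem wlocr_ : S_WLOCR := by
  intro r m E e hE m₀ hm₀ ε hε
  set C₁ : ℝ := ∑ i, cst (e i) m₀ with hC₁
  have hC₁0 : 0 ≤ C₁ := Finset.sum_nonneg fun i _ => cst_nonneg _ _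
  have hCi : ∀ i, cst (e i) m₀ ≤ C₁ := fun i =>
    Finset.single_le_sum (f := fun i => cst (e i) m₀) (fun i _ => cst_nonneg _ _) (Finset.mem_univ i)
  set ε' : ℝ := min ε (1 / 2) with hε'
  have hε'0 : 0 < ε' := lt_min hε (by norm_num)
  have hε'1 : ε' ≤ ε := min_le_left _ _
  have hε'2 : ε' ≤ 1 / 2 := min_le_right _ _
  have hlog : 0 < Real.log (1 + ε') := Real.log_pos (by linarith)
  set κ : ℝ := min (1 / 2) (Real.log (1 + ε') / ((m : ℝ) + 1)) with hκ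
  have hm1 : (0 : ℝ) < (m : ℝ) + 1 := by positivity
  have hκ0 : 0 < κ := lt_min (by norm_num) (div_pos hlog hm1)
  have hκ1 : κ ≤ 1 / 2 := min_le_left _ _
  have hκ2 : (m : ℝ) * κ ≤ Real.log (1 + ε') := by
    have h1 : κ ≤ Real.log (1 + ε') / ((m : ℝ) + 1) := min_le_right _ _
    have h2 : ((m : ℝ) + 1) * κ ≤ Real.log (1 + ε') := by
      rw [le_div_iff₀ hm1] at h1
      linarith
    linarith
  have hm₀0 : (0 : ℝ) < m₀ := by exact_mod_cast hm₀
  have hden : (0 : ℝ) < m₀ * C₁ + 1 := by positivity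
  refine ⟨min 1 (κ / (m₀ * C₁ + 1)), lt_min one_pos (div_pos hκ0 hden), ?_⟩
  intro H hH c hc T t hT hfT hTt Y Z hYZ
  have hH0 : (0 : ℝ) < H := by exact_mod_cast hH
  have hTt1 : |T - t| ≤ 1 := hTt.trans (min_le_left _ _)
  have hTt2 : |T - t| * (m₀ * C₁ + 1) ≤ κ := by
    have := hTt.trans (min_le_right _ _)
    rwa [le_div_iff₀ hden] at this
  have hcb : ∀ i j, |(c i j : ℝ)| ≤ H := by
    intro i j
    unfold BXI at hc
    rw [Fintype.mem_piFinset] at hc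
    have h1 := hc i
    rw [Fintype.mem_piFinset] at h1
    have h2 := h1 j
    rw [Finset.mem_Icc] at h2
    have h3 : |c i j| ≤ (H : ℤ) := abs_le.mpr ⟨h2.1, h2.2⟩
    exact_mod_cast h3
  -- the relative changes
  set u : Fin m → ℝ := fun i => fmv (c i) 1 t / fmv (c i) 1 T - 1 with hu
  have hT0 : ∀ i, fmv (c i) 1 T ≠ 0 := hYZ.1
  have hub : ∀ i, |u i| ≤ κ := by
    intro i
    have h1 : u i = (fmv (c i) 1 t - fmv (c i) 1 T) / fmv (c i) 1 T := by
      rw [hu]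
      field_simp [hT0 i]
    have hpos : 0 < |fmv (c i) 1 T| := abs_pos.mpr (hT0 i)
    rw [h1, abs_div, div_le_iff₀ hpos]
    have h2 := fmv_close (c i) H m₀ (hcb i) T t hT hTt1
    have h3 : (H : ℝ) * (|T - t| * cst (e i) m₀) ≤ κ * (H / m₀) := by
      have h4 : |T - t| * cst (e i) m₀ ≤ |T - t| * C₁ :=
        mul_le_mul_of_nonneg_left (hCi i) (abs_nonneg _)
      have h5 : |T - t| * C₁ ≤ κ / m₀ := by
        rw [le_div_iff₀ hm₀0]
        have : 0 ≤ |T - t| := abs_nonneg _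
        nlinarith
      calc (H : ℝ) * (|T - t| * cst (e i) m₀) ≤ H * (κ / m₀) :=
            mul_le_mul_of_nonneg_left (h4.trans h5) hH0.le
        _ = κ * (H / m₀) := by ring
    calc |fmv (c i) 1 t - fmv (c i) 1 T| ≤ H * (|T - t| * cst (e i) m₀) := h2
      _ ≤ κ * (H / m₀) := h3
      _ ≤ κ * |fmv (c i) 1 T| := mul_le_mul_of_nonneg_left (hfT i) hκ0.le
  have hft : ∀ i, fmv (c i) 1 t = fmv (c i) 1 T * (1 + u i) := by
    intro i
    rw [hu]
    have := hT0 i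
    field_simp
    ring
  have h1u : ∀ i, 0 < 1 + u i := by
    intro i
    have := (abs_le.mp (hub i)).1
    linarith
  set ρ : Fin r → ℝ := fun j => ∏ i ∈ E.I j, (1 + u i) with hρ
  have hρ0 : ∀ j, 0 < ρ j := fun j => Finset.prod_pos fun i _ => h1u i
  have hρ1 : ∀ j, |ρ j - 1| ≤ ε' := by
    intro j
    have h1 := Finset.norm_prod_one_add_sub_one_le (E.I j) u
    rw [Real.norm_eq_abs] at h1
    have h2 : ∑ i ∈ E.I j, ‖u i‖ ≤ Real.log (1 + ε') := by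
      calc ∑ i ∈ E.I j, ‖u i‖ ≤ ∑ i ∈ E.I j, κ := Finset.sum_le_sum fun i _ => by
            rw [Real.norm_eq_abs]; exact hub i
        _ = ((E.I j).card : ℝ) * κ := by rw [Finset.sum_const, nsmul_eq_mul]
        _ ≤ (m : ℝ) * κ := by
            refine mul_le_mul_of_nonneg_right ?_ hκ0.le
            have : (E.I j).card ≤ m := by
              simpa using Finset.card_le_univ (E.I j)
            exact_mod_cast this
        _ ≤ Real.log (1 + ε') := hκ2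
    have h3 : Real.exp (∑ i ∈ E.I j, ‖u i‖) ≤ 1 + ε' := by
      calc Real.exp (∑ i ∈ E.I j, ‖u i‖) ≤ Real.exp (Real.log (1 + ε')) := Real.exp_le_exp.mpr h2
        _ = 1 + ε' := Real.exp_log (by linarith)
    linarith
  refine ⟨fun j => Real.sqrt (ρ j) * Y j, fun j => Real.sqrt (ρ j) * Z j, ⟨?_, ?_⟩, ?_⟩
  · intro i
    rw [hft i]
    exact mul_ne_zero (hT0 i) (h1u i).ne'
  · intro j
    have h1 := hYZ.2 j
    have hs : Real.sqrt (ρ j) ^ 2 = ρ j := Real.sq_sqrt (hρ0 j).le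
    have h2 : rhs E c j 1 t = ρ j * rhs E c j 1 T := by
      unfold rhs
      rw [Finset.prod_congr rfl (fun i _ => hft i), Finset.prod_mul_distrib]
      ring
    rw [h2, ← h1]
    calc (Real.sqrt (ρ j) * Y j) ^ 2 - (E.a j : ℝ) * (Real.sqrt (ρ j) * Z j) ^ 2
        = Real.sqrt (ρ j) ^ 2 * (Y j ^ 2 - (E.a j : ℝ) * Z j ^ 2) := by ring
      _ = ρ j * (Y j ^ 2 - (E.a j : ℝ) * Z j ^ 2) := by rw [hs]
  · intro j
    have hθ0 : 0 ≤ Real.sqrt (ρ j) := Real.sqrt_nonneg _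
    have hs : Real.sqrt (ρ j) ^ 2 = ρ j := Real.sq_sqrt (hρ0 j).le
    have hθ : |1 - Real.sqrt (ρ j)| ≤ ε := by
      have h1 : |ρ j - 1| = |1 - Real.sqrt (ρ j)| * (1 + Real.sqrt (ρ j)) := by
        have : ρ j - 1 = (Real.sqrt (ρ j) - 1) * (1 + Real.sqrt (ρ j)) := by
          calc ρ j - 1 = Real.sqrt (ρ j) ^ 2 - 1 := by rw [hs]
            _ = _ := by ring
        rw [this, abs_mul, abs_sub_comm, abs_of_nonneg (by linarith : 0 ≤ 1 + Real.sqrt (ρ j))]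
      have h2 : |1 - Real.sqrt (ρ j)| ≤ |ρ j - 1| := by
        rw [h1]
        nlinarith [abs_nonneg (1 - Real.sqrt (ρ j))]
      linarith [hρ1 j]
    have key : ∀ w : ℝ, |w| ≤ max |Y j| |Z j| → |w - Real.sqrt (ρ j) * w| ≤ ε * max |Y j| |Z j| := by
      intro w hw
      have : w - Real.sqrt (ρ j) * w = (1 - Real.sqrt (ρ j)) * w := by ring
      rw [this, abs_mul]
      exact mul_le_mul hθ hw (abs_nonneg _) hε.le
    unfold Cl
    simp only [Real.norm_eq_abs]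
    exact ⟨key _ (le_max_left _ _), key _ (le_max_right _ _)⟩

end Pool.Agent.N771.GC
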